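import Pool.Agent.Y552.Conj.Src
import Pool.Agent.Y552.Conj.Rec

set_option autoImplicit false

namespace Pool.Agent.Results.MP_60077b_lc.BinaryThreshold

open Pool.Agent.Y552.Conj

/-! ## Definitions used in the statement

Words over an alphabet with `k` letters are lists with entries in `Fin k`, sets of words are
Mathlib's `Language (Fin k)`, and the product `L * M` of languages is Mathlib's
`{u ++ v | u ∈ L, v ∈ M}`. Finite sets of words are given by explicit lists. -/

/-- The finite set of words given by an explicit list. -/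
def lang {k : ℕ} (X : List (List (Fin k))) : Language (Fin k) := {w | w ∈ X}

/-- `X Z = Z Y` for some nonempty set `Z` of words, finite or infinite. -/
def Conjugate {k : ℕ} (X Y : List (List (Fin k))) : Prop :=
  ∃ Z : Language (Fin k), (∃ z, z ∈ Z) ∧ lang X * Z = Z * lang Y

/-- `X Z = Z Y` for some nonempty finite set `Z` of words. -/
def FinConjugate {k : ℕ} (X Y : List (List (Fin k))) : Prop :=
  ∃ Z : Language (Fin k), {z | z ∈ Z}.Finite ∧ (∃ z, z ∈ Z) ∧ lang X * Z = Z * lang Y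

/-- `X Z ⊆ Z Y` for some nonempty set `Z` of words, finite or infinite. -/
def SemiConjugate {k : ℕ} (X Y : List (List (Fin k))) : Prop :=
  ∃ Z : Language (Fin k), (∃ z, z ∈ Z) ∧ lang X * Z ≤ Z * lang Y

/-- There is an algorithm which decides the relation `C` for finite sets of nonempty words over the
fixed alphabet with `k` letters. -/
def IsDecidable (k : ℕ) (C : List (List (Fin k)) → List (List (Fin k)) → Prop) : Prop :=
  ∃ f : List (List (Fin k)) × List (List (Fin k)) → Bool, Computable f ∧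
    ∀ X Y : List (List (Fin k)), [] ∉ X → [] ∉ Y → (f (X, Y) = true ↔ C X Y)

/-! ## Small lemmas -/

theorem sub_iff {k : ℕ} (X Y : List (List (Fin k))) (Z : Language (Fin k)) :
    lang X * Z ≤ Z * lang Y ↔ ∀ x ∈ X, ∀ z ∈ Z, ∃ z' ∈ Z, ∃ y ∈ Y, x ++ z = z' ++ y := by
  constructor
  · intro h1 x hx z hz
    have hm : x ++ z ∈ lang X * Z := Language.append_mem_mul hx hz
    obtain ⟨z', hz', y, hy, he⟩ := Language.mem_mul.1 (h1 hm)
    exact ⟨z', hz', y, hy, he.symm⟩
  · intro h1 w hw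
    obtain ⟨x, hx, z, hz, rfl⟩ := Language.mem_mul.1 hw
    obtain ⟨z', hz', y, hy, he⟩ := h1 x hx z hz
    exact Language.mem_mul.2 ⟨z', hz', y, hy, he.symm⟩

theorem sup_iff {k : ℕ} (X Y : List (List (Fin k))) (Z : Language (Fin k)) :
    Z * lang Y ≤ lang X * Z ↔ ∀ y ∈ Y, ∀ z ∈ Z, ∃ z' ∈ Z, ∃ x ∈ X, z ++ y = x ++ z' := by
  constructor
  · intro h1 y hy z hz
    have hm : z ++ y ∈ Z * lang Y := Language.append_mem_mul hz hy
    obtain ⟨x, hx, z', hz', he⟩ := Language.mem_mul.1 (h1 hm)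
    exact ⟨z', hz', x, hx, he.symm⟩
  · intro h1 w hw
    obtain ⟨z, hz, y, hy, rfl⟩ := Language.mem_mul.1 hw
    obtain ⟨z', hz', x, hx, he⟩ := h1 y hy z hz
    exact Language.mem_mul.2 ⟨x, hx, z', hz', he.symm⟩

theorem eq_iff {k : ℕ} (X Y : List (List (Fin k))) (Z : Language (Fin k)) :
    lang X * Z = Z * lang Y ↔
      (∀ x ∈ X, ∀ z ∈ Z, ∃ z' ∈ Z, ∃ y ∈ Y, x ++ z = z' ++ y) ∧
      (∀ y ∈ Y, ∀ z ∈ Z, ∃ z' ∈ Z, ∃ x ∈ X, z ++ y = x ++ z') := by
  rw [← sub_iff, ← sup_iff]
  exact ⟨fun h => ⟨h.le, h.ge⟩, fun h => le_antisymm h.1 h.2⟩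

theorem fin_conj {k : ℕ} {X Y : List (List (Fin k))} (h : FinConjugate X Y) : Conjugate X Y := by
  obtain ⟨Z, _, h1, h2⟩ := h
  exact ⟨Z, h1, h2⟩

theorem conj_semi {k : ℕ} {X Y : List (List (Fin k))} (h : Conjugate X Y) :
    SemiConjugate X Y := by
  obtain ⟨Z, h1, h2⟩ := h
  exact ⟨Z, h1, h2.le⟩

/-- finite solutions as lists -/
theorem fin_iff {k : ℕ} (X Y : List (List (Fin k))) :
    FinConjugate X Y ↔ ∃ Z : List (List (Fin k)), Chk X Y Z := by
  constructor
  · rintro ⟨Z, hfin, ⟨z, hz⟩, he⟩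
    have hm : ∀ w, w ∈ hfin.toFinset.toList ↔ w ∈ Z := by
      intro w
      rw [Finset.mem_toList, Set.Finite.mem_toFinset]
      exact Iff.rfl
    rw [eq_iff] at he
    refine ⟨hfin.toFinset.toList, ?_, ?_, ?_⟩
    · intro h0
      have := (hm z).2 hz
      rw [h0] at this
      simp at this
    · intro x hx w hw
      obtain ⟨z', hz', y, hy, h1⟩ := he.1 x hx w ((hm w).1 hw)
      exact ⟨z', (hm z').2 hz', y, hy, h1⟩
    · intro y hy w hw
      obtain ⟨z', hz', x, hx, h1⟩ := he.2 y hy w ((hm w).1 hw)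
      exact ⟨z', (hm z').2 hz', x, hx, h1⟩
  · rintro ⟨Z, h0, h1, h2⟩
    refine ⟨lang Z, List.finite_toSet Z, ?_, ?_⟩
    · obtain ⟨z, hz⟩ := List.exists_mem_of_ne_nil Z h0
      exact ⟨z, hz⟩
    · rw [eq_iff]
      exact ⟨h1, h2⟩

/-! ## Alphabets with at most one letter -/

theorem conj_one {k : ℕ} (hk : k ≤ 1) (X Y : List (List (Fin k))) : Conjugate X Y ↔ C1 X Y := by
  have : Subsingleton (Fin k) := Fin.subsingleton_iff_le_one.2 hk
  constructor
  · rintro ⟨Z, hne, he⟩
    rw [eq_iff] at he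
    exact C1_of_eq X Y Z hne he.1 he.2
  · rintro ⟨h1, h2⟩
    refine ⟨⊤, ⟨[], trivial⟩, ?_⟩
    rw [eq_iff]
    constructor
    · intro x hx z _
      obtain ⟨y, hy, hl⟩ := h1 x hx
      refine ⟨_, trivial, y, hy, split_len _ _ ?_⟩
      rw [List.length_append]
      omega
    · intro y hy z _
      obtain ⟨x, hx, hl⟩ := h2 y hy
      refine ⟨_, trivial, x, hx, split_len' _ _ ?_⟩
      rw [List.length_append]
      omega

theorem fin_one {k : ℕ} (hk : k ≤ 1) (X Y : List (List (Fin k))) :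
    FinConjugate X Y ↔ C2 X Y := by
  have : Subsingleton (Fin k) := Fin.subsingleton_iff_le_one.2 hk
  constructor
  · rintro ⟨Z, hfin, hne, he⟩
    rw [eq_iff] at he
    exact C2_of_eq X Y Z hfin hne he.1 he.2
  · intro hC
    obtain ⟨N, h1, h2⟩ := sol_of_C2 X Y hC
    refine ⟨{w | w.length ≤ N}, List.finite_length_le (Fin k) N, ⟨[], Nat.zero_le _⟩, ?_⟩
    exact (eq_iff _ _ _).2 ⟨h1, h2⟩

/-! ## Alphabets with two letters or more -/

/-- the reduction of every recursively enumerable predicate, over `k ≥ 2` letters -/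
theorem reduce {k : ℕ} (hk : 2 ≤ k) {α : Type} [Primcodable α] (P : α → Prop) (hP : REPred P) :
    ∃ (x : α → List (Fin k)) (Y : α → List (List (Fin k))), Computable x ∧ Computable Y ∧
      (∀ a, x a ≠ [] ∧ [] ∉ Y a) ∧ (∀ a, P a → FinConjugate (x a :: Y a) (Y a)) ∧
      ∀ a, ¬ P a → ¬ SemiConjugate (x a :: Y a) (Y a) := by
  obtain ⟨g, hg, hgP⟩ := re_reduces P hP
  obtain ⟨x, Y, hx, hY, hx0, hY0, h1, h2⟩ := reductionU
  obtain ⟨o, t, hot⟩ : ∃ o t : Fin k, o ≠ t :=
    ⟨⟨1, by omega⟩, ⟨0, by omega⟩, by simp [Fin.ext_iff]⟩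
  have hne : ∀ w : List ℕ, w ≠ [] → hw o t w ≠ [] := by
    intro w hw0 h0
    exact hw0 (hw_inj hot w [] (by rw [h0]; rfl))
  have hmem : ∀ (n : ℕ) (w : List ℕ), w ∈ x n :: Y n → hw o t w ∈ hw o t (x n) ::
      (Y n).map (hw o t) := by
    intro n w hw1
    rcases List.mem_cons.1 hw1 with rfl | h
    · exact List.mem_cons_self
    · exact List.mem_cons_of_mem _ (List.mem_map.2 ⟨w, h, rfl⟩)
  have hmem' : ∀ (n : ℕ) (v : List (Fin k)), v ∈ hw o t (x n) :: (Y n).map (hw o t) →
      ∃ w ∈ x n :: Y n, hw o t w = v := by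
    intro n v hv
    rcases List.mem_cons.1 hv with rfl | h
    · exact ⟨x n, List.mem_cons_self, rfl⟩
    · obtain ⟨w, hw1, rfl⟩ := List.mem_map.1 h
      exact ⟨w, List.mem_cons_of_mem _ hw1, rfl⟩
  refine ⟨fun a => hw o t (x (g a)), fun a => (Y (g a)).map (hw o t), ?_, ?_, ?_, ?_, ?_⟩
  · exact (hw_pr o t).to_comp.comp (hx.comp hg)
  · have h3 : Primrec fun L : List (List ℕ) => L.map (hw o t) :=
      Primrec.list_map Primrec.id ((hw_pr o t).comp Primrec.snd)
    exact h3.to_comp.comp (hY.comp hg)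
  · intro a
    refine ⟨hne _ (hx0 _), ?_⟩
    intro h0
    obtain ⟨w, hw1, hw2⟩ := List.mem_map.1 h0
    exact hne w (hY0 _ w hw1) hw2
  · intro a ha
    obtain ⟨Z, hfin, hZ, he⟩ := h1 (g a) ((hgP a).2 ha)
    refine ⟨hw o t '' Z, hfin.image _, ?_, ?_⟩
    · obtain ⟨z, hz⟩ := hZ
      exact ⟨_, z, hz, rfl⟩
    · refine (eq_iff _ _ _).2 ?_
      constructor
      · rintro v hv _ ⟨z, hz, rfl⟩
        obtain ⟨w, hw1, rfl⟩ := hmem' _ v hv
        have hm : w ++ z ∈ {w | ∃ x' ∈ x (g a) :: Y (g a), ∃ z ∈ Z, w = x' ++ z} :=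
          ⟨w, hw1, z, hz, rfl⟩
        rw [he] at hm
        obtain ⟨z', hz', y, hy, h3⟩ := hm
        refine ⟨hw o t z', ⟨z', hz', rfl⟩, hw o t y, List.mem_map.2 ⟨y, hy, rfl⟩, ?_⟩
        rw [← hw_append, h3, hw_append]
      · rintro v hv _ ⟨z, hz, rfl⟩
        obtain ⟨y, hy, rfl⟩ := List.mem_map.1 hv
        have hm : z ++ y ∈ {w | ∃ z ∈ Z, ∃ y ∈ Y (g a), w = z ++ y} :=
          ⟨z, hz, y, hy, rfl⟩
        rw [← he] at hm
        obtain ⟨x', hx', z', hz', h3⟩ := hm
        refine ⟨hw o t z', ⟨z', hz', rfl⟩, hw o t x', hmem _ _ hx', ?_⟩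
        rw [← hw_append, h3, hw_append]
  · rintro a ha ⟨W, hWne, hW⟩
    rw [sub_iff] at hW
    have hW' : ∀ x' ∈ x (g a) :: Y (g a), ∀ w ∈ W, ∃ w' ∈ W, ∃ y ∈ Y (g a),
        hw o t x' ++ w = w' ++ hw o t y := by
      intro x' hx' w hw1
      obtain ⟨w', hw', v, hv, h3⟩ := hW _ (hmem _ _ hx') w hw1
      obtain ⟨y, hy, rfl⟩ := List.mem_map.1 hv
      exact ⟨w', hw', y, hy, h3⟩
    obtain ⟨Z, hZ1, hZ2⟩ := decode_sol hot (x (g a)) (x (g a) :: Y (g a)) (Y (g a))
      List.mem_cons_self (hY0 _) W hWne hW'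
    exact h2 (g a) (fun hd => ha ((hgP a).1 hd)) Z hZ1 hZ2

theorem nonempty_mem {k : ℕ} {x : List (Fin k)} {Y : List (List (Fin k))} (h1 : x ≠ [])
    (h2 : [] ∉ Y) : [] ∉ x :: Y := by
  intro h
  rcases List.mem_cons.1 h with h | h
  · exact h1 h.symm
  · exact h2 h

/-- no algorithm separates -/
theorem no_sep {k : ℕ} (hk : 2 ≤ k) (f : List (Fin k) × List (List (Fin k)) → Bool)
    (hf : Computable f) (h : ∀ (x : List (Fin k)) (Y : List (List (Fin k))), x ≠ [] → [] ∉ Y →
      (FinConjugate (x :: Y) Y → f (x, Y) = true) ∧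
      (¬ SemiConjugate (x :: Y) Y → f (x, Y) = false)) : False := by
  have hre : REPred fun n => (Pool.Agent.Helper948.Erode.u n).Dom :=
    Partrec.dom_re Pool.Agent.Helper948.Erode.u_partrec
  obtain ⟨x, Y, hx, hY, h0, h1, h2⟩ := reduce hk _ hre
  apply Pool.Agent.Helper948.Erode.u_not_computable
  have h3 : ComputablePred fun n => f (x n, Y n) = true := by
    refine ⟨inferInstance, ?_⟩
    refine (hf.comp (hx.pair hY)).of_eq ?_
    intro n
    simp
  refine h3.of_eq ?_
  intro n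
  constructor
  · intro h4
    by_contra h5
    rw [(h _ _ (h0 n).1 (h0 n).2).2 (h2 n h5)] at h4
    exact Bool.false_ne_true h4
  · intro h4
    exact (h _ _ (h0 n).1 (h0 n).2).1 (h1 n h4)

theorem undecidable {k : ℕ} (hk : 2 ≤ k)
    (C : List (List (Fin k)) → List (List (Fin k)) → Prop)
    (hC1 : ∀ X Y, FinConjugate X Y → C X Y) (hC2 : ∀ X Y, C X Y → SemiConjugate X Y) :
    ¬ IsDecidable k C := by
  rintro ⟨f, hf, h⟩
  have hc : Computable fun p : List (Fin k) × List (List (Fin k)) => (p.1 :: p.2, p.2) :=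
    (Primrec.pair (Primrec.list_cons.comp Primrec.fst Primrec.snd) Primrec.snd).to_comp
  refine no_sep hk (fun p => f (p.1 :: p.2, p.2)) (hf.comp hc) ?_
  intro x Y hx hY
  have h1 := h (x :: Y) Y (nonempty_mem hx hY) hY
  constructor
  · intro h2
    exact h1.2 (hC1 _ _ h2)
  · intro h2
    rw [Bool.eq_false_iff]
    intro h3
    exact h2 (hC2 _ _ (h1.1 h3))

/-! ## The theorem -/

/-- The exact threshold for the conjugacy problems `X Z = Z Y` of finite sets of nonempty words over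
a fixed alphabet with `k` letters. (1) Conjugacy by a nonempty set `Z` (finite or infinite) is
decidable if and only if `k ≤ 1`; (2) conjugacy by a nonempty finite set `Z` is decidable if and only
if `k ≤ 1`. For `k ≤ 1` the two relations are: the least lengths agree (`C1`), the least and the
greatest lengths agree (`C2`). (3) For `k ≥ 2`, even among the pairs `X = Y ∪ {x}`, no algorithm
separates those with a nonempty finite solution of `X Z = Z Y` from those for which `X Z ⊆ Z Y` has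
no nonempty solution at all. (4) For `k ≥ 2` the set of the pairs with a nonempty finite solution is
recursively enumerable, and every recursively enumerable predicate is many-one reducible to it by
pairs `X = Y ∪ {x}` which have no infinite solutions either in the negative case: conjugacy by
finite sets is complete for the recursively enumerable sets. -/
theorem result :
    (∀ k : ℕ, IsDecidable k Conjugate ↔ k ≤ 1) ∧
    (∀ k : ℕ, IsDecidable k FinConjugate ↔ k ≤ 1) ∧
    (∀ k : ℕ, k ≤ 1 → ∀ X Y : List (List (Fin k)), (Conjugate X Y ↔ C1 X Y) ∧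
      (FinConjugate X Y ↔ C2 X Y)) ∧
    (∀ k : ℕ, 2 ≤ k → ¬ ∃ f : List (Fin k) × List (List (Fin k)) → Bool, Computable f ∧
      ∀ (x : List (Fin k)) (Y : List (List (Fin k))), x ≠ [] → [] ∉ Y →
        (FinConjugate (x :: Y) Y → f (x, Y) = true) ∧
        (¬ SemiConjugate (x :: Y) Y → f (x, Y) = false)) ∧
    (∀ k : ℕ, 2 ≤ k →
      REPred (fun p : List (List (Fin k)) × List (List (Fin k)) =>
        ([] ∉ p.1 ∧ [] ∉ p.2) ∧ FinConjugate p.1 p.2) ∧
      ∀ (α : Type) [Primcodable α] (P : α → Prop), REPred P →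
        ∃ (x : α → List (Fin k)) (Y : α → List (List (Fin k))), Computable x ∧ Computable Y ∧
          (∀ a, x a ≠ [] ∧ [] ∉ Y a) ∧ (∀ a, P a → FinConjugate (x a :: Y a) (Y a)) ∧
          ∀ a, ¬ P a → ¬ SemiConjugate (x a :: Y a) (Y a)) := by
  refine ⟨?_, ?_, ?_, ?_, ?_⟩
  · intro k
    constructor
    · intro h
      by_contra hk
      exact undecidable (by omega) _ (fun _ _ => fin_conj) (fun _ _ => conj_semi) h
    · intro hk
      obtain ⟨d, hd⟩ := C1_pr (α := Fin k)
      refine ⟨_, hd.to_comp, ?_⟩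
      intro X Y _ _
      rw [decide_eq_true_eq]
      exact (conj_one hk X Y).symm
  · intro k
    constructor
    · intro h
      by_contra hk
      exact undecidable (by omega) _ (fun _ _ h => h) (fun _ _ h => conj_semi (fin_conj h)) h
    · intro hk
      obtain ⟨d, hd⟩ := C2_pr (α := Fin k)
      refine ⟨_, hd.to_comp, ?_⟩
      intro X Y _ _
      rw [decide_eq_true_eq]
      exact (fin_one hk X Y).symm
  · intro k hk X Y
    exact ⟨conj_one hk X Y, fin_one hk X Y⟩
  · rintro k hk ⟨f, hf, h⟩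
    exact no_sep hk f hf h
  · intro k hk
    refine ⟨?_, ?_⟩
    · refine (re_fin (α := Fin k)).of_eq ?_
      intro p
      rw [fin_iff]
    · intro α _ P hP
      exact reduce hk P hP

end Pool.Agent.Results.MP_60077b_lc.BinaryThreshold
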